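import Mathlib
import Pool.Agent.Q90.OpenConv2

/-!
# MP_3d0876_an: `ℓ¹(G)` is not open if a quotient of `G` has a non-central element of finite order

`H937R3.EllOne G` is the Banach algebra `ℓ¹(G)` of the discrete group `G`: Mathlib's Banach space
`lp (fun _ : G => ℂ) 1` with the convolution product `(f * h)(z) = ∑ₓ f(x) h(x⁻¹ z)`.
`Q90.OpenConv.OpenMul A`: the multiplication map `A × A → A` is an open map.

Proof. Openness passes from `ℓ¹(G)` to its quotient algebra `ℓ¹(Q)`.  If `h ∈ Q` has finite order
and is not central, one of the spectral idempotents `p = (1/n) ∑ ζ^{-j} δ_{h^j}` is not central in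
`ℓ¹(Q)`, and then multiplication is not open at the point `(p, 1 - p)` or `(1 - p, p)`.
-/

set_option autoImplicit false

namespace Pool.Agent.Results.MP_3d0876_an.TorsionCentral

open H937R3 Q90.OpenConv

/-- Let `φ : G → Q` be a surjective homomorphism of groups and suppose that some element `h` of
finite order of `Q` is not central.  Then convolution on `ℓ¹(G)` is not an open map. -/
theorem result (G Q : Type*) [DecidableEq G] [Group G] [DecidableEq Q] [Group Q] (φ : G →* Q)
    (hφ : Function.Surjective φ) (g h : Q) (hh : IsOfFinOrder h) (hgh : g * h ≠ h * g) :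
    ¬ OpenMul (EllOne G) := by
  intro hopen
  obtain ⟨n, hn, hk⟩ := isOfFinOrder_iff_pow_eq_one.1 hh
  exact hgh (commute_of_openMul (openMul_quotient φ hφ hopen) g h n (by omega) hk)

end Pool.Agent.Results.MP_3d0876_an.TorsionCentral
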